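import Mathlib

set_option autoImplicit false

namespace Pool.Agent.Results.MP_d046ed_co.TDimension

open Filter Topology Finset

/-- The elements of `Div((αn, n])`. -/
def DivSet (α : ℝ) (n : ℕ) : Set ℕ := {m | α * n < m ∧ m ≤ n}

/-- An order embedding of `Div((αn,n])` (with divisibility) into `𝐭^d`. -/
def Embeds (α : ℝ) (n t d : ℕ) : Prop :=
  ∃ f : DivSet α n → (Fin d → Fin t), Function.Injective f ∧
    ∀ x y : DivSet α n, (x : ℕ) ∣ y ↔ f x ≤ f y

/-- The `t`-dimension of `Div((αn,n])`. -/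
noncomputable def tdim (α : ℝ) (n t : ℕ) : ℕ := sInf {d | 1 ≤ d ∧ Embeds α n t d}

/-! ### Large antichains in `𝐭^d` -/

lemma exists_antichain (t d n : ℕ) (h : (n + 1) * (d * (t - 1) + 1) ≤ t ^ d) :
    ∃ g : Fin (n + 1) → (Fin d → Fin t), ∀ i j, g i ≤ g j → i = j := by
  classical
  set s : (Fin d → Fin t) → ℕ := fun x => ∑ i, (x i : ℕ) with hs
  have hmaps : ∀ x ∈ (univ : Finset (Fin d → Fin t)), s x ∈ range (d * (t - 1) + 1) := by
    intro x _
    rw [mem_range, Nat.lt_succ_iff, hs]
    calc ∑ i, (x i : ℕ) ≤ ∑ _i : Fin d, (t - 1) := by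
          apply sum_le_sum
          intro i _
          have := (x i).2
          omega
      _ = d * (t - 1) := by simp
  obtain ⟨v, _, hv⟩ := exists_le_card_fiber_of_mul_le_card_of_maps_to hmaps
    ⟨0, by simp⟩ (n := n + 1) (by
      rw [card_range, card_univ, Fintype.card_fun, Fintype.card_fin, Fintype.card_fin, mul_comm]
      exact h)
  set A : Finset (Fin d → Fin t) := univ.filter (fun x => s x = v) with hA
  have hcard : Fintype.card (Fin (n + 1)) ≤ Fintype.card A := by
    rw [Fintype.card_fin, Fintype.card_coe]; exact hv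
  obtain ⟨φ⟩ := Function.Embedding.nonempty_of_card_le hcard
  refine ⟨fun i => φ i, fun i j hij => ?_⟩
  have hi := (mem_filter.mp (φ i).2).2
  have hj := (mem_filter.mp (φ j).2).2
  have heq : (φ i : Fin d → Fin t) = φ j := by
    by_contra hne
    have hlt : s (φ i) < s (φ j) := by
      rw [hs]
      obtain ⟨k, hk⟩ := Function.ne_iff.mp hne
      apply sum_lt_sum
      · intro k _
        exact hij k
      · refine ⟨k, mem_univ _, ?_⟩
        exact lt_of_le_of_ne (hij k) (fun h => hk (Fin.ext h))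
    omega
  exact φ.injective (Subtype.ext heq)

/-! ### Reed–Solomon labels -/

/-- evaluation of the polynomial with coefficient vector `c` -/
def ev {F : Type*} [Field F] {k : ℕ} (c : Fin k → F) (r : F) : F := ∑ i, c i * r ^ (i : ℕ)

lemma agree_card {F : Type*} [Field F] [Fintype F] [DecidableEq F] {k : ℕ} (c c' : Fin k → F)
    (h : c ≠ c') : (univ.filter (fun r => ev c r = ev c' r)).card ≤ k - 1 := by
  classical
  set P : Polynomial F := ∑ i : Fin k, Polynomial.C (c i - c' i) * Polynomial.X ^ (i : ℕ) with hP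
  have hcoef : ∀ j : Fin k, P.coeff j = c j - c' j := by
    intro j
    rw [hP, Polynomial.finset_sum_coeff, sum_eq_single j]
    · rw [Polynomial.coeff_C_mul, Polynomial.coeff_X_pow, if_pos rfl, mul_one]
    · intro b _ hb
      rw [Polynomial.coeff_C_mul, Polynomial.coeff_X_pow, if_neg, mul_zero]
      intro h'; exact hb (Fin.ext h'.symm)
    · intro h'; exact absurd (mem_univ _) h'
  have hne : P ≠ 0 := by
    intro h0
    apply h
    ext j
    have := hcoef j
    rw [h0, Polynomial.coeff_zero] at this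
    exact (sub_eq_zero.mp this.symm)
  have hdeg : P.natDegree ≤ k - 1 := by
    rw [hP]
    apply Polynomial.natDegree_sum_le_of_forall_le
    intro i _
    refine (Polynomial.natDegree_C_mul_X_pow_le _ _).trans ?_
    have := i.2
    omega
  have hsub : (univ.filter (fun r => ev c r = ev c' r)) ⊆ P.roots.toFinset := by
    intro r hr
    rw [mem_filter] at hr
    rw [Multiset.mem_toFinset, Polynomial.mem_roots hne, Polynomial.IsRoot.def, hP,
      Polynomial.eval_finsetSum]
    have h2 := hr.2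
    unfold ev at h2
    simp only [Polynomial.eval_mul, Polynomial.eval_C, Polynomial.eval_pow, Polynomial.eval_X,
      sub_mul]
    rw [sum_sub_distrib, h2, sub_self]
  exact (card_le_card hsub).trans ((Multiset.toFinset_card_le _).trans
    ((Polynomial.card_roots' P).trans hdeg))

lemma exists_sep {F : Type*} [Field F] [Fintype F] [DecidableEq F] {k : ℕ} {ι : Type*}
    (Z : Finset ι) (c : ι → Fin k → F) (c0 : Fin k → F) (hc : ∀ z ∈ Z, c z ≠ c0)
    (hcard : Z.card * (k - 1) < Fintype.card F) :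
    ∃ r : F, ∀ z ∈ Z, ev (c z) r ≠ ev c0 r := by
  classical
  by_contra hcon
  push Not at hcon
  have hsub : (univ : Finset F) ⊆ Z.biUnion (fun z => univ.filter (fun r => ev (c z) r = ev c0 r)) := by
    intro r _
    obtain ⟨z, hz, hzr⟩ := hcon r
    rw [mem_biUnion]
    exact ⟨z, hz, mem_filter.mpr ⟨mem_univ _, hzr⟩⟩
  have h1 := card_le_card hsub
  have h2 := card_biUnion_le_card_mul Z (fun z => univ.filter (fun r => ev (c z) r = ev c0 r)) (k - 1)
    (fun z hz => agree_card _ _ (hc z hz))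
  rw [card_univ] at h1
  omega

/-! ### Smooth and rough parts -/

/-- the part of `m` composed of primes `≤ K` -/
def sm (K m : ℕ) : ℕ := ∏ p ∈ range (K + 1), p ^ m.factorization p

lemma sm_eq_prod (K m : ℕ) : sm K m =
    (m.factorization.support.filter (fun p => p < K + 1)).prod (fun p => p ^ m.factorization p) := by
  classical
  unfold sm
  symm
  apply prod_subset_one_on_sdiff
  · intro p hp
    rw [mem_filter] at hp
    exact mem_range.mpr hp.2
  · intro p hp
    rw [Finset.mem_sdiff, mem_filter, mem_range, Finsupp.mem_support_iff] at hp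
    have : m.factorization p = 0 := by
      by_contra h
      exact hp.2 ⟨h, hp.1⟩
    rw [this, pow_zero]
  · intro p _; rfl

lemma sm_dvd (K m : ℕ) (hm : m ≠ 0) : sm K m ∣ m := by
  conv_rhs => rw [← Nat.factorization_prod_pow_eq_self hm]
  rw [sm_eq_prod]
  exact prod_dvd_prod_of_subset _ _ _ (filter_subset _ _)

lemma sm_pos (K m : ℕ) : 0 < sm K m := by
  rw [sm_eq_prod]
  apply prod_pos
  intro p hp
  rw [mem_filter, Finsupp.mem_support_iff] at hp
  have : p.Prime := by
    by_contra h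
    exact hp.1 (Nat.factorization_eq_zero_of_not_prime m h)
  exact pow_pos this.pos _

lemma sm_self (K r : ℕ) (hr : r ≠ 0) (hrK : r ≤ K) : sm K r = r := by
  rw [sm_eq_prod]
  have : r.factorization.support.filter (fun p => p < K + 1) = r.factorization.support := by
    apply filter_true_of_mem
    intro p hp
    rw [Nat.support_factorization, Nat.mem_primeFactors] at hp
    have := Nat.le_of_dvd (Nat.pos_of_ne_zero hr) hp.2.1
    omega
  rw [this]
  exact Nat.factorization_prod_pow_eq_self hr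

lemma sm_mul (K a b : ℕ) (ha : a ≠ 0) (hb : b ≠ 0) : sm K (a * b) = sm K a * sm K b := by
  unfold sm
  rw [← prod_mul_distrib]
  refine prod_congr rfl fun p _ => ?_
  rw [Nat.factorization_mul ha hb, Finsupp.add_apply, pow_add]

/-- the rough part -/
def ro (K m : ℕ) : ℕ := m / sm K m

lemma ro_mul (K r a : ℕ) (hr : r ≠ 0) (hrK : r ≤ K) (ha : a ≠ 0) : ro K (r * a) = ro K a := by
  unfold ro
  rw [sm_mul K r a hr ha, sm_self K r hr hrK]
  exact Nat.mul_div_mul_left _ _ (Nat.pos_of_ne_zero hr)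

lemma ro_le (K m : ℕ) : ro K m ≤ m := Nat.div_le_self _ _

lemma eq_of_ro_eq (K a b : ℕ) (ha : a ≠ 0) (hb : b ≠ 0) (h : ro K a = ro K b)
    (h2 : ∀ p < K + 1, a.factorization p = b.factorization p) : a = b := by
  have hs : sm K a = sm K b := by
    unfold sm
    refine prod_congr rfl fun p hp => ?_
    rw [h2 p (mem_range.mp hp)]
  have e1 := Nat.div_mul_cancel (sm_dvd K a ha)
  have e2 := Nat.div_mul_cancel (sm_dvd K b hb)
  unfold ro at h
  rw [← e1, ← e2, h, hs]

lemma fact_le_log (m n p : ℕ) (hm : m ≠ 0) (hmn : m ≤ n) : m.factorization p ≤ Nat.log 2 n := by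
  by_cases hp : p.Prime
  · have h1 : p ^ m.factorization p ≤ m := Nat.ordProj_le p hm
    have h2 : 2 ^ m.factorization p ≤ n :=
      (Nat.pow_le_pow_left hp.two_le _).trans (h1.trans hmn)
    exact Nat.le_log_of_pow_le (by norm_num) h2
  · rw [Nat.factorization_eq_zero_of_not_prime m hp]; exact Nat.zero_le _

/-! ### The embedding -/

lemma embed (α : ℝ) (hα : 0 < α) (n t K k q d : ℕ) (ht : 2 ≤ t) (hK : 1 / α ≤ K) [Fact q.Prime]
    (hqk : (Nat.log 2 n + 1) ^ (K + 1) ≤ q ^ k) (hq : K * (k - 1) < q)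
    (hd : (n + 1) * (d * (t - 1) + 1) ≤ t ^ d) : Embeds α n t (d + q * q) := by
  classical
  obtain ⟨g, hg⟩ := exists_antichain t d n hd
  set ℓ := Nat.log 2 n with hℓ
  -- exponent labels
  have hcard : Fintype.card (Fin (K + 1) → Fin (ℓ + 1)) ≤ Fintype.card (Fin k → ZMod q) := by
    rw [Fintype.card_fun, Fintype.card_fun, Fintype.card_fin, Fintype.card_fin, Fintype.card_fin,
      ZMod.card]
    exact hqk
  obtain ⟨φ⟩ := Function.Embedding.nonempty_of_card_le hcard
  have hpos : ∀ m : DivSet α n, (m : ℕ) ≠ 0 := by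
    rintro ⟨m, hm⟩ h0
    have h1 := hm.1
    simp only at h0
    rw [h0] at h1
    have : 0 ≤ α * n := by positivity
    push_cast at h1
    linarith
  set E : DivSet α n → (Fin (K + 1) → Fin (ℓ + 1)) := fun m p =>
    ⟨(m : ℕ).factorization p, Nat.lt_succ_of_le (fact_le_log m n p (hpos m) m.2.2)⟩ with hE
  have hroE : ∀ a b : DivSet α n, ro K a = ro K b → E a = E b → a = b := by
    intro a b h1 h2
    apply Subtype.ext
    apply eq_of_ro_eq K a b (hpos a) (hpos b) h1
    intro p hp
    have := congrFun h2 ⟨p, hp⟩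
    rw [hE] at this
    simpa using this
  -- quotients are at most `K`
  have hquot : ∀ a b : DivSet α n, (a : ℕ) ∣ b → ∃ r, 1 ≤ r ∧ r ≤ K ∧ (b : ℕ) = r * a := by
    rintro ⟨a, ha⟩ ⟨b, hb⟩ ⟨r, hr⟩
    simp only at hr
    have ha0 := hpos ⟨a, ha⟩
    have hb0 := hpos ⟨b, hb⟩
    simp only at ha0 hb0
    have hr0 : r ≠ 0 := by rintro rfl; rw [mul_zero] at hr; exact hb0 hr
    refine ⟨r, by omega, ?_, by simp only; rw [hr, mul_comm]⟩
    have h1 : (a : ℝ) * r ≤ n := by
      have : a * r ≤ n := by rw [← hr]; exact hb.2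
      exact_mod_cast this
    have h2 := ha.1
    have h3 : (0:ℝ) < r := by exact_mod_cast Nat.pos_of_ne_zero hr0
    have hn0 : (0:ℝ) < n := by
      have : (0:ℝ) < a := by exact_mod_cast Nat.pos_of_ne_zero ha0
      have := ha.2
      have : (a:ℝ) ≤ n := by exact_mod_cast this
      linarith
    have h4 : α * n * r < n := by nlinarith
    have h5 : α * r < 1 := by
      have : (α * r) * n < 1 * n := by linarith
      exact lt_of_mul_lt_mul_right this hn0.le
    have h6 : (r:ℝ) < 1 / α := by rw [lt_div_iff₀ hα]; linarith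
    have h7 : (r:ℝ) < K := h6.trans_le hK
    exact_mod_cast h7.le
  have hro : ∀ a b : DivSet α n, (a : ℕ) ∣ b → ro K a = ro K b := by
    intro a b hab
    obtain ⟨r, h1, h2, h3⟩ := hquot a b hab
    rw [h3, ro_mul K r a (by omega) h2 (hpos a)]
  -- the embedding with index set `Fin d ⊕ ZMod q × ZMod q`
  set zero : Fin t := ⟨0, by omega⟩ with hzero
  set one : Fin t := ⟨1, by omega⟩ with hone
  set f : DivSet α n → (Fin d ⊕ (ZMod q × ZMod q) → Fin t) := fun m => Sum.elim
    (g ⟨ro K m, Nat.lt_succ_of_le ((ro_le K m).trans m.2.2)⟩)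
    (fun rv => if ∃ z : DivSet α n, (z : ℕ) ∣ m ∧ ev (φ (E z)) rv.1 = rv.2 then one else zero) with hf
  have hmono : ∀ x y : DivSet α n, (x : ℕ) ∣ y → f x ≤ f y := by
    intro x y hxy
    intro i
    rcases i with i | rv
    · simp only [hf, Sum.elim_inl]
      have e : (⟨ro K x, Nat.lt_succ_of_le ((ro_le K x).trans x.2.2)⟩ : Fin (n + 1)) =
          ⟨ro K y, Nat.lt_succ_of_le ((ro_le K y).trans y.2.2)⟩ := by
        apply Fin.ext; exact hro x y hxy
      rw [e]
    · simp only [hf, Sum.elim_inr]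
      by_cases h : ∃ z : DivSet α n, (z : ℕ) ∣ x ∧ ev (φ (E z)) rv.1 = rv.2
      · have h' : ∃ z : DivSet α n, (z : ℕ) ∣ y ∧ ev (φ (E z)) rv.1 = rv.2 := by
          obtain ⟨z, hz1, hz2⟩ := h
          exact ⟨z, hz1.trans hxy, hz2⟩
        rw [if_pos h, if_pos h']
      · rw [if_neg h]
        exact Fin.mk_le_of_le_val (Nat.zero_le _)
  have hrev : ∀ x y : DivSet α n, f x ≤ f y → (x : ℕ) ∣ y := by
    intro x y hxy
    by_contra hnd
    have hg1 : g ⟨ro K x, Nat.lt_succ_of_le ((ro_le K x).trans x.2.2)⟩ ≤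
        g ⟨ro K y, Nat.lt_succ_of_le ((ro_le K y).trans y.2.2)⟩ := fun i => hxy (Sum.inl i)
    have hroxy : ro K x = ro K y := by
      have := hg _ _ hg1
      exact congrArg Fin.val this
    -- the divisors of `y` in the poset
    set Z : Finset ℕ := (Finset.Icc 1 K).filter (fun r => r ∣ (y : ℕ) ∧ (y : ℕ) / r ∈ DivSet α n) with hZ
    set zz : ℕ → DivSet α n := fun r => if h : (y : ℕ) / r ∈ DivSet α n then ⟨(y : ℕ) / r, h⟩ else y with hzz
    have hZcard : Z.card ≤ K := by
      refine (card_filter_le _ _).trans ?_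
      rw [Nat.card_Icc]; omega
    have hsep := exists_sep (F := ZMod q) Z (fun r => φ (E (zz r))) (φ (E x)) (by
      intro r hr heq
      rw [hZ, mem_filter, Finset.mem_Icc] at hr
      have hz : zz r = ⟨(y : ℕ) / r, hr.2.2⟩ := by rw [hzz]; simp only; rw [dif_pos hr.2.2]
      have hzd : ((zz r : DivSet α n) : ℕ) ∣ y := by
        rw [hz]; exact Nat.div_dvd_of_dvd hr.2.1
      have h1 : E (zz r) = E x := φ.injective heq
      have h2 : zz r = x := hroE _ _ ((hro _ _ hzd).trans hroxy.symm) h1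
      rw [h2] at hzd
      exact hnd hzd) (by
      rw [ZMod.card]
      calc Z.card * (k - 1) ≤ K * (k - 1) := Nat.mul_le_mul_right _ hZcard
        _ < q := hq)
    obtain ⟨r, hr⟩ := hsep
    have h1 := hxy (Sum.inr (r, ev (φ (E x)) r))
    simp only [hf, Sum.elim_inr] at h1
    rw [if_pos ⟨x, dvd_rfl, rfl⟩, if_neg] at h1
    · have : (1:ℕ) ≤ 0 := h1
      omega
    · rintro ⟨z, hz1, hz2⟩
      obtain ⟨s, hs1, hs2, hs3⟩ := hquot z y hz1
      have hzs : (y : ℕ) / s = z := by rw [hs3]; exact Nat.mul_div_cancel_left _ (by omega)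
      have hmem : s ∈ Z := by
        rw [hZ, mem_filter, Finset.mem_Icc]
        exact ⟨⟨hs1, hs2⟩, ⟨z, hs3⟩, by rw [hzs]; exact z.2⟩
      have hzz2 : zz s = z := by
        rw [hzz]; simp only
        rw [dif_pos (by rw [hzs]; exact z.2)]
        exact Subtype.ext hzs
      have := hr s hmem
      rw [hzz2] at this
      exact this hz2
  have hinj : Function.Injective f := by
    intro x y hxy
    apply Subtype.ext
    exact Nat.dvd_antisymm (hrev x y (le_of_eq hxy)) (hrev y x (le_of_eq hxy.symm))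
  -- transport to `Fin`
  have hcardι : Fintype.card (Fin d ⊕ (ZMod q × ZMod q)) = d + q * q := by
    rw [Fintype.card_sum, Fintype.card_prod, Fintype.card_fin, ZMod.card]
  set eq := Fintype.equivFinOfCardEq hcardι with heq
  refine ⟨fun m i => f m (eq.symm i), ?_, ?_⟩
  · intro x y hxy
    apply hinj
    ext i
    have := congrFun hxy (eq i)
    simp only [Equiv.symm_apply_apply] at this
    rw [this]
  · intro x y
    constructor
    · intro h i
      exact hmono x y h _
    · intro h
      apply hrev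
      intro i
      have := h (eq i)
      simpa using this

/-! ### Asymptotics -/

lemma embeds_card (α : ℝ) (n t d : ℕ) (hα : 0 < α) (h : Embeds α n t d) :
    (1 - α) * n ≤ (t : ℝ) ^ d := by
  classical
  obtain ⟨f, hf, _⟩ := h
  set A : Finset ℕ := (range (n + 1)).filter (fun m : ℕ => α * n < m) with hA
  have hAset : ∀ m, m ∈ A ↔ m ∈ DivSet α n := by
    intro m
    rw [hA, mem_filter, mem_range, Nat.lt_succ_iff, and_comm]; rfl
  have h1 : A.card ≤ t ^ d := by
    have h2 : Fintype.card A ≤ Fintype.card (Fin d → Fin t) :=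
      Fintype.card_le_of_injective (fun m : A => f ⟨m, (hAset m).mp m.2⟩) (by
        intro x y hxy
        have := hf hxy
        apply Subtype.ext
        simpa using this)
    rw [Fintype.card_coe, Fintype.card_fun, Fintype.card_fin, Fintype.card_fin] at h2
    exact h2
  set A' : Finset ℕ := (range (n + 1)).filter (fun m : ℕ => ¬ (α * (n:ℝ) < (m:ℝ))) with hA'
  have h3 : (range (n + 1)).card = A.card + A'.card := by
    rw [hA, hA']
    exact (card_filter_add_card_filter_not (s := range (n + 1)) (fun m : ℕ => α * (n:ℝ) < m)).symm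
  have h3' : (n : ℝ) + 1 = A.card + A'.card := by
    rw [card_range] at h3
    exact_mod_cast h3
  have hneg : 0 ≤ α * n := by positivity
  have h4 : (A'.card : ℝ) ≤ α * n + 1 := by
    have hsub : A' ⊆ range (⌊α * (n:ℝ)⌋₊ + 1) := by
      intro m hm
      rw [hA', mem_filter] at hm
      rw [mem_range, Nat.lt_succ_iff]
      exact Nat.le_floor (not_lt.mp hm.2)
    have h5 := card_le_card hsub
    rw [card_range] at h5
    have h6 := Nat.floor_le hneg
    have h7 : (A'.card : ℝ) ≤ ((⌊α * (n:ℝ)⌋₊ + 1 : ℕ) : ℝ) := by exact_mod_cast h5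
    push_cast at h7
    linarith
  have h5 : (A.card : ℝ) ≤ (t:ℝ) ^ d := by exact_mod_cast h1
  linarith

lemma small_pow (w : ℕ) (hw : 8 ≤ w) : w ^ 2 + 3 * w ≤ 2 ^ (w - 1) := by
  induction w, hw using Nat.le_induction with
  | base => norm_num
  | succ w hw ih =>
    have e : w + 1 - 1 = (w - 1) + 1 := by omega
    calc (w + 1) ^ 2 + 3 * (w + 1) ≤ 2 * (w ^ 2 + 3 * w) := by nlinarith
      _ ≤ 2 * 2 ^ (w - 1) := Nat.mul_le_mul_left _ ih
      _ = 2 ^ (w + 1 - 1) := by rw [e, pow_succ 2 (w - 1)]; ring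

/-- the upper bound -/
lemma upper (α : ℝ) (hα : 0 < α) (t : ℕ) (ht : 2 ≤ t) (n : ℕ) (hn : t ^ 64 ≤ n) :
    ∃ q : ℕ, q ≤ 2 * (⌈1 / α⌉₊ * ((⌈1 / α⌉₊ + 1) * (Nat.log 2 (Nat.log 2 n + 1) + 1))) ∧
      Embeds α n t (Nat.log t n + 1 + Nat.sqrt (Nat.log t n + 1) + q * q) := by
  set K := ⌈1 / α⌉₊ with hK
  have hK0 : 0 < K := Nat.ceil_pos.mpr (by positivity)
  set j := Nat.log 2 (Nat.log 2 n + 1) with hj
  set k := (K + 1) * (j + 1) with hk
  have hKk : K * k ≠ 0 := by positivity
  obtain ⟨q, hq, hq1, hq2⟩ := Nat.exists_prime_lt_and_le_two_mul (K * k) hKk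
  have : Fact q.Prime := ⟨hq⟩
  refine ⟨q, hq2, ?_⟩
  set D := Nat.log t n + 1 with hD
  set w := Nat.sqrt D with hw
  apply embed α hα n t K k q (D + w) ht (Nat.le_ceil _)
  · calc (Nat.log 2 n + 1) ^ (K + 1) ≤ (2 ^ (j + 1)) ^ (K + 1) := by
          apply Nat.pow_le_pow_left
          exact (Nat.lt_pow_succ_log_self (by norm_num) _).le
      _ = 2 ^ k := by rw [← pow_mul, hk, mul_comm]
      _ ≤ q ^ k := Nat.pow_le_pow_left hq.two_le k
  · calc K * (k - 1) ≤ K * k := Nat.mul_le_mul_left _ (Nat.sub_le _ _)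
      _ < q := hq1
  · have h1 : n + 1 ≤ t ^ D := Nat.lt_pow_succ_log_self (by omega) _
    have hD64 : 64 ≤ D := by
      have : 64 ≤ Nat.log t n := Nat.le_log_of_pow_le (by omega) hn
      omega
    have hw8 : 8 ≤ w := by
      rw [hw, Nat.le_sqrt]; omega
    have hDw : D ≤ w ^ 2 + 2 * w := by
      have := Nat.lt_succ_sqrt D
      rw [← hw] at this
      nlinarith
    have h2 : (D + w) * (t - 1) + 1 ≤ t ^ w := by
      have h3 : (D + w) * (t - 1) + 1 ≤ (w ^ 2 + 3 * w) * t := by
        have h4 : D + w ≤ w ^ 2 + 3 * w := by omega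
        have h5 : 1 ≤ w ^ 2 + 3 * w := by nlinarith
        obtain ⟨s, rfl⟩ : ∃ s, t = s + 1 := ⟨t - 1, by omega⟩
        rw [Nat.add_sub_cancel]
        nlinarith
      have h4 := small_pow w hw8
      have h5 : 2 ^ (w - 1) ≤ t ^ (w - 1) := Nat.pow_le_pow_left ht _
      calc (D + w) * (t - 1) + 1 ≤ (w ^ 2 + 3 * w) * t := h3
        _ ≤ t ^ (w - 1) * t := Nat.mul_le_mul_right _ (h4.trans h5)
        _ = t ^ w := by rw [← pow_succ]; congr 1; omega
    rw [pow_add]
    exact Nat.mul_le_mul h1 h2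

/-- **Q1 holds**, with `c(α,t) = 1 / log t`. -/
theorem result : ∀ (α : ℝ) (t : ℕ), 0 < α → α < 1 → 2 ≤ t →
    Tendsto (fun n : ℕ => (tdim α n t : ℝ) / Real.log n) atTop (𝓝 (1 / Real.log t)) := by
  intro α t hα hα1 ht
  have hlogt : 0 < Real.log t := Real.log_pos (by exact_mod_cast ht)
  set K := ⌈1 / α⌉₊ with hK
  set C : ℝ := 2 * (K * (K + 1)) with hC
  set j : ℕ → ℕ := fun n => Nat.log 2 (Nat.log 2 n + 1) with hj
  set w : ℕ → ℕ := fun n => Nat.sqrt (Nat.log t n + 1) with hw
  have hL : Tendsto (fun n : ℕ => Real.log n) atTop atTop :=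
    Real.tendsto_log_atTop.comp tendsto_natCast_atTop_atTop
  -- bounds
  have hbounds : ∀ᶠ n : ℕ in atTop, (tdim α n t : ℝ) ≤
      Real.log n / Real.log t + 1 + w n + C ^ 2 * ((j n : ℝ) + 1) ^ 2 ∧
      Real.log ((1 - α) * n) / Real.log t ≤ tdim α n t := by
    filter_upwards [eventually_ge_atTop (t ^ 64)] with n hn
    obtain ⟨q, hq, hE⟩ := upper α hα t ht n hn
    have hn1 : 1 ≤ n := (Nat.one_le_pow _ _ (by omega)).trans hn
    have hn0 : (0:ℝ) < n := by exact_mod_cast hn1
    have hmem : (Nat.log t n + 1 + Nat.sqrt (Nat.log t n + 1) + q * q) ∈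
        {d | 1 ≤ d ∧ Embeds α n t d} := ⟨by omega, hE⟩
    constructor
    · have h1 : tdim α n t ≤ Nat.log t n + 1 + Nat.sqrt (Nat.log t n + 1) + q * q :=
        Nat.sInf_le hmem
      have h2 : (tdim α n t : ℝ) ≤ Nat.log t n + 1 + w n + (q:ℝ) * q := by exact_mod_cast h1
      have h3 : (Nat.log t n : ℝ) ≤ Real.log n / Real.log t := by
        rw [le_div_iff₀ hlogt, ← Real.log_pow]
        apply Real.log_le_log (by positivity)
        exact_mod_cast Nat.pow_log_le_self t (by omega)
      have h4 : (q:ℝ) ≤ C * ((j n : ℝ) + 1) := by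
        have : (q:ℝ) ≤ 2 * (K * ((K + 1) * ((j n : ℝ) + 1))) := by exact_mod_cast hq
        rw [hC]; linarith
      have h5 : (q:ℝ) * q ≤ C ^ 2 * ((j n : ℝ) + 1) ^ 2 := by
        calc (q:ℝ) * q ≤ (C * ((j n : ℝ) + 1)) * (C * ((j n : ℝ) + 1)) :=
              mul_le_mul h4 h4 (by positivity) (by positivity)
          _ = _ := by ring
      linarith
    · have h1 : Embeds α n t (tdim α n t) := (Nat.sInf_mem ⟨_, hmem⟩).2
      have h2 := embeds_card α n t _ hα h1
      rw [div_le_iff₀ hlogt, ← Real.log_pow]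
      apply Real.log_le_log _ h2
      have : 0 < 1 - α := by linarith
      positivity
  -- limits of the error terms
  have hjt : Tendsto j atTop atTop := by
    have h1 : Tendsto (fun n : ℕ => Nat.log 2 n) atTop atTop := by
      rw [tendsto_atTop]
      intro b
      filter_upwards [eventually_ge_atTop (2 ^ b)] with n hn
      exact Nat.le_log_of_pow_le (by norm_num) hn
    exact h1.comp ((tendsto_add_atTop_nat 1).comp h1)
  have herr1 : Tendsto (fun n : ℕ => 1 / Real.log n) atTop (𝓝 0) := by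
    have := tendsto_inv_atTop_zero.comp hL
    refine this.congr (fun n => ?_)
    simp only [Function.comp, one_div]
  have hlogbig : ∀ᶠ n : ℕ in atTop, (1:ℝ) ≤ Real.log n := hL.eventually (eventually_ge_atTop 1)
  have herr2 : Tendsto (fun n : ℕ => (w n : ℝ) / Real.log n) atTop (𝓝 0) := by
    have h1 : Tendsto (fun n : ℕ => Real.sqrt (1 / Real.log t + 1) * (1 / Real.sqrt (Real.log n)))
        atTop (𝓝 (Real.sqrt (1 / Real.log t + 1) * 0)) := by
      apply Tendsto.const_mul
      have := tendsto_inv_atTop_zero.comp (Real.tendsto_sqrt_atTop.comp hL)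
      refine this.congr (fun n => ?_)
      simp only [Function.comp, one_div]
    rw [mul_zero] at h1
    refine squeeze_zero' (hlogbig.mono fun n hn => by positivity) ?_ h1
    filter_upwards [hlogbig, eventually_ge_atTop 1] with n hn hn1
    have hlog0 : 0 < Real.log n := by linarith
    have h3 : (Nat.log t n : ℝ) ≤ Real.log n / Real.log t := by
      rw [le_div_iff₀ hlogt, ← Real.log_pow]
      apply Real.log_le_log (by positivity)
      exact_mod_cast Nat.pow_log_le_self t (by omega)
    have h4 : (w n : ℝ) ^ 2 ≤ (1 / Real.log t + 1) * Real.log n := by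
      have h5 : (w n) ^ 2 ≤ Nat.log t n + 1 := Nat.sqrt_le' _
      have h6 : (w n : ℝ) ^ 2 ≤ Nat.log t n + 1 := by exact_mod_cast h5
      have e : (1 / Real.log t + 1) * Real.log n = Real.log n / Real.log t + Real.log n := by ring
      rw [e]; linarith
    have h5 : (w n : ℝ) ≤ Real.sqrt (1 / Real.log t + 1) * Real.sqrt (Real.log n) := by
      rw [← Real.sqrt_mul (by positivity)]
      exact Real.le_sqrt_of_sq_le h4
    rw [div_le_iff₀ hlog0]
    refine h5.trans (le_of_eq ?_)
    have h6 : Real.sqrt (Real.log n) ≠ 0 := (Real.sqrt_pos.mpr hlog0).ne'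
    have h7 : Real.sqrt (Real.log n) * Real.sqrt (Real.log n) = Real.log n :=
      Real.mul_self_sqrt hlog0.le
    rw [mul_assoc]
    congr 1
    have h8 : 1 / Real.sqrt (Real.log n) * Real.log n = Real.sqrt (Real.log n) := by
      rw [div_mul_eq_mul_div, one_mul, div_eq_iff h6]
      exact h7.symm
    exact h8.symm
  have herr3 : Tendsto (fun n : ℕ => (C ^ 2 * ((j n : ℝ) + 1) ^ 2) / Real.log n) atTop (𝓝 0) := by
    have h0 : Tendsto (fun m : ℕ => ((m:ℝ) + 1) ^ 2 / 2 ^ m) atTop (𝓝 0) := by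
      have h1 := tendsto_pow_const_div_const_pow_of_one_lt 2 (show (1:ℝ) < 2 by norm_num)
      have h2 : Tendsto (fun m : ℕ => (4:ℝ) * ((m:ℝ) ^ 2 / 2 ^ m)) atTop (𝓝 0) := by
        simpa using h1.const_mul (4:ℝ)
      refine squeeze_zero' (Eventually.of_forall fun m => by positivity) ?_ h2
      filter_upwards [eventually_ge_atTop 1] with m hm
      have hm' : (1:ℝ) ≤ m := by exact_mod_cast hm
      rw [← mul_div_assoc]
      apply div_le_div_of_nonneg_right _ (by positivity)
      nlinarith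
    have h1 := (h0.comp hjt).const_mul (3 * C ^ 2)
    rw [mul_zero] at h1
    refine squeeze_zero' (hlogbig.mono fun n hn => by positivity) ?_ h1
    filter_upwards [hlogbig, eventually_ge_atTop 1] with n hn hn1
    have hlog0 : 0 < Real.log n := by linarith
    have hn0 : (0:ℝ) < n := by exact_mod_cast hn1
    have h2 : (2:ℝ) ^ (j n) ≤ 3 * Real.log n := by
      have h3 : 2 ^ (j n) ≤ Nat.log 2 n + 1 := Nat.pow_log_le_self 2 (by omega)
      have h3' : (2:ℝ) ^ (j n) ≤ (Nat.log 2 n : ℝ) + 1 := by exact_mod_cast h3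
      have h4 : (Nat.log 2 n : ℝ) * Real.log 2 ≤ Real.log n := by
        rw [← Real.log_pow]
        apply Real.log_le_log (by positivity)
        exact_mod_cast Nat.pow_log_le_self 2 (by omega)
      have h5 := Real.log_two_gt_d9
      nlinarith
    simp only [Function.comp]
    rw [div_le_iff₀ hlog0]
    have h6 : (0:ℝ) < 2 ^ (j n) := by positivity
    have h7 : 3 * C ^ 2 * (((j n : ℝ) + 1) ^ 2 / 2 ^ (j n)) * Real.log n =
        (C ^ 2 * ((j n : ℝ) + 1) ^ 2) * (3 * Real.log n / 2 ^ (j n)) := by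
      field_simp
    rw [h7]
    have h8 : 1 ≤ 3 * Real.log n / 2 ^ (j n) := by rw [le_div_iff₀ h6]; linarith
    have h9 : 0 ≤ C ^ 2 * ((j n : ℝ) + 1) ^ 2 := by positivity
    nlinarith
  have hupper : Tendsto (fun n : ℕ => 1 / Real.log t + 1 / Real.log n + (w n : ℝ) / Real.log n +
      (C ^ 2 * ((j n : ℝ) + 1) ^ 2) / Real.log n) atTop (𝓝 (1 / Real.log t)) := by
    have := ((herr1.const_add (1 / Real.log t)).add herr2).add herr3
    simpa using this
  have hlower : Tendsto (fun n : ℕ => 1 / Real.log t + Real.log (1 - α) / Real.log t * (1 / Real.log n))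
      atTop (𝓝 (1 / Real.log t)) := by
    have := (herr1.const_mul (Real.log (1 - α) / Real.log t)).const_add (1 / Real.log t)
    simpa using this
  refine tendsto_of_tendsto_of_tendsto_of_le_of_le' hlower hupper ?_ ?_
  · filter_upwards [hbounds, hlogbig, eventually_ge_atTop 1] with n hn hn1 hn2
    have hlog0 : 0 < Real.log n := by linarith
    have hn0 : (0:ℝ) < n := by exact_mod_cast hn2
    have h1 := hn.2
    rw [Real.log_mul (by linarith) hn0.ne'] at h1
    rw [le_div_iff₀ hlog0]
    refine le_trans (le_of_eq ?_) h1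
    field_simp
    ring
  · filter_upwards [hbounds, hlogbig] with n hn hn1
    have hlog0 : 0 < Real.log n := by linarith
    rw [div_le_iff₀ hlog0]
    refine hn.1.trans (le_of_eq ?_)
    field_simp

end Pool.Agent.Results.MP_d046ed_co.TDimension
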